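import Mathlib
import Pool.Agent.P.MP_16d9f2_an.Lind

set_option autoImplicit false

namespace Pool.Agent.Results.MP_16d9f2_an.LindelofCounter

open Cardinal Pool.Agent.P.MP_16d9f2_an

/-- No map from a ball of `X` to `Y` separates far pairs from near pairs. -/
def NoEmb (X Y : Type) [SeminormedAddCommGroup X] [PseudoMetricSpace Y] : Prop :=
  ∀ (f : X → Y) (r R a b : ℝ), 0 < r → 0 < R →
    (∀ x y, ‖x‖ ≤ R → ‖y‖ ≤ R → dist x y ≤ r → dist (f x) (f y) ≤ a) →
    (∀ x y, ‖x‖ ≤ R → ‖y‖ ≤ R → R ≤ dist x y → b ≤ dist (f x) (f y)) → b ≤ a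

/-- A weakly Lindelof determined space of density continuum with no Lipschitz, uniform or coarse
embedding into bounded sequences. -/
theorem result : ∃ (X : Type) (_ : NormedAddCommGroup X) (_ : NormedSpace ℝ X) (_ : CompleteSpace X),
    WLD X ∧ (∃ D : Set X, Dense D ∧ #D = continuum) ∧ (∀ D : Set X, Dense D → continuum ≤ #D) ∧
      NoEmb X (lp (fun _ : ℕ => ℝ) ⊤) := by
  obtain ⟨T, _, hT⟩ := exists_BT
  exact ⟨XT T, inferInstance, inferInstance, inferInstance, wld_XT hT, exists_dense_XT hT,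
    fun D hD => hT.card ▸ le_dense_XT D hD, no_embed hT⟩

end Pool.Agent.Results.MP_16d9f2_an.LindelofCounter
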