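import Mathlib
import Pool.Agent.P.MP_16d9f2_an.Three

set_option autoImplicit false

namespace Pool.Agent.Results.MP_16d9f2_an.NormingBasis

open Cardinal Set Pool.Agent.P.MP_16d9f2_an

/-- `X` embeds into `Y` with distortion at most `C`. -/
def Emb (X Y : Type) [PseudoMetricSpace X] [PseudoMetricSpace Y] (C : ℝ) : Prop :=
  ∃ f : X → Y, ∀ x y : X, dist x y ≤ dist (f x) (f y) ∧ dist (f x) (f y) ≤ C * dist x y

/-- A Markushevich basis whose coordinate functionals span an `l`-norming subspace. -/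
def IsNormingBasis {X Γ : Type} [NormedAddCommGroup X] [NormedSpace ℝ X] (e : Γ → X)
    (g : Γ → StrongDual ℝ X) (l : ℝ) : Prop :=
  (∀ i, g i (e i) = 1) ∧ (∀ i j, i ≠ j → g i (e j) = 0) ∧
    Dense (Submodule.span ℝ (range e) : Set X) ∧
    ∀ x, ∃ φ ∈ Submodule.span ℝ (range g), ‖φ‖ ≤ 1 ∧ ‖x‖ ≤ l * φ x

/-- A space with a norming Markushevich basis of size at most continuum embeds into bounded
sequences. -/
theorem result (X Γ : Type) [NormedAddCommGroup X] [NormedSpace ℝ X] (e : Γ → X)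
    (g : Γ → StrongDual ℝ X) (l : ℝ) (hl : 0 ≤ l) (h : IsNormingBasis e g l)
    (hΓ : #Γ ≤ continuum) : Emb X (lp (fun _ : ℕ => ℝ) ⊤) (l * (2 + l)) := by
  obtain ⟨-, h1, h2, h3⟩ := h
  choose nm a1 a2 using h3
  obtain ⟨code⟩ := (Cardinal.le_def Γ (ℕ → Bool)).1 (by simpa using hΓ)
  obtain ⟨cut, hcut⟩ := exists_cut code code.injective
  have hfin : ∀ φ ∈ Submodule.span ℝ (range g), {γ | φ (e γ) ≠ 0}.Finite := fun φ hφ => by
    induction hφ using Submodule.span_induction with
    | mem _ hx =>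
      obtain ⟨i, rfl⟩ := hx
      exact (finite_singleton i).subset fun j hj => by_contra fun k => hj (h1 i j (Ne.symm k))
    | zero => simp
    | add φ ψ _ _ b c =>
      refine (b.union c).subset fun j hj => by_contra fun k => hj ?_
      simp only [mem_union, mem_ofPred, not_or, not_not] at k
      simp [k.1, k.2]
    | smul r φ _ b => exact b.subset fun j hj k => hj (by simp [k])
  obtain ⟨f, hf⟩ := embed_master e h2 nm l hl a2
    (fun c : ℕ × List Bool => {γ | cut c.1 γ = c.2}) fun x η hη γ => by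
      obtain ⟨L, hL⟩ := hcut 1 (fun _ => γ) _ (hfin _ (a1 x))
      refine ⟨(L, cut L γ), rfl, fun γ' b c => ?_⟩
      rw [show nm x (e γ') = 0 from by_contra fun k => c (hL 0 γ' k b), abs_zero]
      exact hη.le
  refine ⟨fun x => l • f x, fun x y => ?_⟩
  rw [dist_smul₀, Real.norm_of_nonneg hl, mul_assoc]
  exact ⟨(hf x y).1, mul_le_mul_of_nonneg_left (hf x y).2 hl⟩

end Pool.Agent.Results.MP_16d9f2_an.NormingBasis
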