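import Mathlib
import Pool.Agent.P.MP_16d9f2_an.Lower

set_option autoImplicit false

namespace Pool.Agent.Results.MP_16d9f2_an.SharpThree

open Cardinal Pool.Agent.P.MP_16d9f2_an

/-- `X` embeds into `Y` with distortion at most `C`. -/
def Emb (X Y : Type) [PseudoMetricSpace X] [PseudoMetricSpace Y] (C : ℝ) : Prop :=
  ∃ f : X → Y, ∀ x y : X, dist x y ≤ dist (f x) (f y) ∧ dist (f x) (f y) ≤ C * dist x y

/-- The least distortion with which all weakly countably determined spaces of density at most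
continuum embed into bounded sequences is three, and it is already three for reflexive spaces. -/
theorem result (C : ℝ) : List.TFAE
    [3 ≤ C,
     ∀ (X : Type) [NormedAddCommGroup X] [NormedSpace ℝ X] [CompleteSpace X], WCD X →
      (∃ D : Set X, Dense D ∧ #D ≤ continuum) → Emb X (lp (fun _ : ℕ => ℝ) ⊤) C,
     ∀ (X : Type) [NormedAddCommGroup X] [NormedSpace ℝ X] [CompleteSpace X],
      Function.Surjective (NormedSpace.inclusionInDoubleDual ℝ X) →
      (∃ D : Set X, Dense D ∧ #D = continuum) → (∀ D : Set X, Dense D → continuum ≤ #D) →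
      Emb X (lp (fun _ : ℕ => ℝ) ⊤) C] := by
  tfae_have 1 → 2 := fun h X _ _ _ hX ⟨D, h1, h2⟩ => (hX.embed D h1 h2).imp fun f hf x y =>
    ⟨(hf x y).1, (hf x y).2.trans (mul_le_mul_of_nonneg_right h dist_nonneg)⟩
  tfae_have 2 → 3 := fun h X _ _ _ hX ⟨D, h1, h2⟩ _ => h X (wcd_of_reflexive hX) ⟨D, h1, h2.le⟩
  tfae_have 3 → 1 := fun h =>
    let ⟨f, hf⟩ := h XX refl_XX exists_dense_XX le_dense_XX
    three_le f hf
  tfae_finish

end Pool.Agent.Results.MP_16d9f2_an.SharpThree
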